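import Mathlib
import Pool.Agent.Results.MP_41e59e_gt.NoSuitable

set_option autoImplicit false

namespace Pool.Agent.Results.MP_1c9ee6_al.Counter

open Filter Topology Set Function

/-- a gyrogroup structure on `G` -/
structure Gyro (G : Type) where
  op : G → G → G
  one : G
  inv : G → G
  gyr : G → G → G ≃ G
  one_op : ∀ a, op one a = a
  inv_op : ∀ a, op (inv a) a = one
  gyr_op : ∀ a b x y, gyr a b (op x y) = op (gyr a b x) (gyr a b y)
  assoc : ∀ a b c, op a (op b c) = op (op a b) (gyr a b c)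
  loop : ∀ a b, gyr a b = gyr (op a b) b

variable {G : Type} (Γ : Gyro G)

/-- subgyrogroup -/
def IsSub (H : Set G) : Prop := H.Nonempty ∧ ∀ a ∈ H, Γ.inv a ∈ H ∧ ∀ b ∈ H, Γ.op a b ∈ H

/-- subgyrogroup generated by `S` -/
def gen (S : Set G) : Set G := ⋂₀ {H | IsSub Γ H ∧ S ⊆ H}

/-- strongly topological gyrogroup -/
def StrongTop [TopologicalSpace G] : Prop :=
  Continuous (uncurry Γ.op) ∧ Continuous Γ.inv ∧
    ∃ 𝒰 : Set (Set G), (𝓝 Γ.one).HasBasis (· ∈ 𝒰) id ∧ ∀ U ∈ 𝒰, ∀ x y, Γ.gyr x y '' U = U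

/-- `S` is a suitable set for the subgyrogroup `H` with the subspace topology -/
def SuitableFor [TopologicalSpace G] (H S : Set G) : Prop :=
  S ⊆ H ∧ DiscreteTopology S ∧ IsClosed ((↑) ⁻¹' (S ∪ {Γ.one}) : Set H) ∧ Dense ((↑) ⁻¹' gen Γ S : Set H)

def ofGroup (G : Type) [AddCommGroup G] : Gyro G :=
  ⟨(· + ·), 0, (-·), fun _ _ => Equiv.refl G, zero_add, neg_add_cancel, fun _ _ _ _ => rfl,
    fun _ _ _ => (add_assoc _ _ _).symm, fun _ _ => rfl⟩

lemma aux (B : Type) [AddCommGroup B] [LinearOrder B] [NoMaxOrder B] [NoMinOrder B] [TopologicalSpace B]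
    [OrderTopology B] [IsTopologicalAddGroup B] (hB : ∀ S : Set B, DiscreteTopology S → IsClosed (S ∪ {0}) →
      ¬ Dense (AddSubgroup.closure S : Set B)) :
    ∃ (G : Type) (Γ : Gyro G) (_ : LinearOrder G) (_ : TopologicalSpace G), OrderTopology G ∧ StrongTop Γ ∧
      (∃ S, SuitableFor Γ univ S) ∧ ∃ H, IsSub Γ H ∧ ∀ S, ¬ SuitableFor Γ H S := by
  let _ : TopologicalSpace (B ×ₗ B) := Preorder.topology _
  have : OrderTopology (B ×ₗ B) := ⟨rfl⟩
  let ι : B → B → B ×ₗ B := fun a b => toLex (a, b)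
  have rg : ∀ a x, x ∈ range (ι a) ↔ (ofLex x).1 = a := fun a x =>
    ⟨by rintro ⟨b, rfl⟩; rfl, by rintro rfl; exact ⟨_, rfl⟩⟩
  have sm : ∀ a, StrictMono (ι a) := fun a _ _ h => Prod.Lex.right _ h
  have oc : ∀ a, (range (ι a)).OrdConnected := fun a => ⟨fun x hx y hy z hz => (rg _ _).2 (le_antisymm
    ((Prod.Lex.monotone_fst _ _ hz.2).trans_eq ((rg _ _).1 hy))
    (((rg _ _).1 hx).symm.trans_le (Prod.Lex.monotone_fst _ _ hz.1)))⟩
  have oe : ∀ a, IsOpenEmbedding (ι a) := fun a => ⟨(sm a).isEmbedding_of_ordConnected (oc a),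
    isOpen_iff_mem_nhds.2 (by
      rintro _ ⟨b, rfl⟩
      obtain ⟨c, hc⟩ := exists_lt b
      obtain ⟨d, hd⟩ := exists_gt b
      exact mem_of_superset (Ioo_mem_nhds (sm a hc) (sm a hd))
        (Ioo_subset_Icc_self.trans ((oc a).out ⟨c, rfl⟩ ⟨d, rfl⟩)))⟩
  let S : Set (B ×ₗ B) := {x | (ofLex x).2 = (ofLex x).1 ∨ (ofLex x).2 = 0}
  have fin : ∀ a, (S ∩ range (ι a)).Finite := fun a => (toFinite {ι a a, ι a 0}).subset (by
    rintro _ ⟨h | h, b, rfl⟩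
    exacts [.inl (congrArg (ι a) h), .inr (congrArg (ι a) h)])
  have loc : ∀ x, ∃ U ∈ 𝓝 x, U ∩ S ⊆ {x} := fun x =>
    ⟨range (ι (ofLex x).1) \ ((S ∩ range (ι (ofLex x).1)) \ {x}), ((oe _).isOpen_range.sdiff
      ((fin _).subset sdiff_subset).isClosed).mem_nhds ⟨⟨_, rfl⟩, fun h => h.2 rfl⟩,
      fun y hy => by_contra fun h => hy.1.2 ⟨⟨hy.2, hy.1.1⟩, h⟩⟩
  refine ⟨B ×ₗ B, ofGroup _, inferInstance, inferInstance, this, ⟨continuous_iff_continuousAt.2 fun ⟨x, y⟩ =>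
    (((oe (ofLex x).1).prodMap (oe (ofLex y).1)).continuousAt_iff (x := ((ofLex x).2, (ofLex y).2))).1
      ((oe ((ofLex x).1 + (ofLex y).1)).continuous.comp continuous_add).continuousAt,
    continuous_iff_continuousAt.2 fun x => ((oe (ofLex x).1).continuousAt_iff (x := (ofLex x).2)).1
      ((oe (-(ofLex x).1)).continuous.comp continuous_neg).continuousAt,
    {U | U ∈ 𝓝 0}, basis_sets _, fun U _ _ _ => image_id U⟩, ⟨S, subset_univ _, ?_, ?_, fun x => subset_closure ?_⟩,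
    range (ι 0), ⟨range_nonempty _, ?_⟩, fun T ⟨h1, h2, h3, h4⟩ => hB (ι 0 ⁻¹' T) ?_ ?_ ?_⟩
  · exact isDiscrete_iff_discreteTopology.1 (isDiscrete_iff_nhdsNE.2 fun x _ => by
      obtain ⟨U, h1, h2⟩ := loc x
      exact inf_principal_eq_bot.2 (mem_of_superset (inter_mem_nhdsWithin _ h1) fun y hy h => hy.1 (h2 ⟨hy.2, h⟩)))
  · refine IsClosed.preimage continuous_subtype_val (IsClosed.union ⟨isOpen_iff_mem_nhds.2 fun x hx => ?_⟩
      isClosed_singleton)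
    obtain ⟨U, h1, h2⟩ := loc x
    exact mem_of_superset h1 fun y hy h => hx (h2 ⟨hy, h⟩ ▸ h)
  · rintro H ⟨⟨-, h1⟩, h2⟩
    obtain ⟨x, -⟩ := x
    have := (h1 _ (h2 (show ι ((ofLex x).1 - (ofLex x).2) 0 ∈ S from .inr rfl))).2 _
      (h2 (show ι (ofLex x).2 (ofLex x).2 ∈ S from .inl rfl))
    exact (congrArg (· ∈ H) (congrArg toLex (Prod.ext (sub_add_cancel _ _) (zero_add _)))).mp this
  · rintro _ ⟨a, rfl⟩
    exact ⟨(rg _ _).2 neg_zero, by rintro _ ⟨b, rfl⟩; exact (rg _ _).2 (add_zero _)⟩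
  · exact DiscreteTopology.preimage_of_continuous_injective _ (oe 0).continuous (oe 0).injective
  · have := h3.preimage (continuous_rangeFactorization_iff.2 (oe 0).continuous)
    convert this using 1
    ext x
    exact or_congr Iff.rfl (oe 0).injective.eq_iff.symm
  · refine (h4.preimage (oe 0).isEmbedding.toHomeomorph.isOpenMap).mono fun x hx => ?_
    refine (hx (ι 0 '' AddSubgroup.closure (ι 0 ⁻¹' T)) ⟨⟨⟨_, 0, zero_mem _, rfl⟩, ?_⟩, fun t ht => ?_⟩).elim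
      fun y ⟨h5, h6⟩ => (oe 0).injective h6 ▸ h5
    · rintro _ ⟨a, ha, rfl⟩
      refine ⟨⟨-a, neg_mem ha, congrArg toLex (Prod.ext neg_zero.symm rfl)⟩, ?_⟩
      rintro _ ⟨b, hb, rfl⟩
      exact ⟨a + b, add_mem ha hb, congrArg toLex (Prod.ext (add_zero _).symm rfl)⟩
    · obtain ⟨a, rfl⟩ := h1 ht
      exact ⟨a, AddSubgroup.subset_closure ht, rfl⟩

theorem result : ∃ (G : Type) (Γ : Gyro G) (_ : LinearOrder G) (_ : TopologicalSpace G), OrderTopology G ∧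
    StrongTop Γ ∧ (∃ S, SuitableFor Γ univ S) ∧ ∃ H, IsSub Γ H ∧ ∀ S, ¬ SuitableFor Γ H S := by
  have i0 : MP_41e59e_gt.NoSuitable.K :=
    (MP_41e59e_gt.NoSuitable.ub Cardinal.aleph0_le_continuum (ι := Empty) (by simp) nofun).choose
  have : Nontrivial MP_41e59e_gt.NoSuitable.A := ⟨_, _, (MP_41e59e_gt.NoSuitable.e_pos i0).ne⟩
  exact aux MP_41e59e_gt.NoSuitable.A MP_41e59e_gt.NoSuitable.main

end Pool.Agent.Results.MP_1c9ee6_al.Counter
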